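import Pool.Agent.W500.CS.Stm2

/-!
# Project CQ, part LINK: the support in the uniformising disc
-/

set_option autoImplicit false

open MeasureTheory Metric Set Filter Topology

namespace Pool.Agent.W481.CQ.LINK

open Pool.Agent.W500.CS
open Pool.Agent.H586R3.CT (CT)

theorem gr_inj {w w' : ℂ} (h : gr w = gr w') : w = w' := by
  have h1 := congrArg (fun L : ℂ →L[ℝ] ℝ => L 1) h
  have h2 := congrArg (fun L : ℂ →L[ℝ] ℝ => L Complex.I) h
  simp only [gr_apply, mul_one] at h1
  simp only [gr_apply, Complex.mul_I_re, neg_inj] at h2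
  exact Complex.ext h1 h2

theorem main : S_OPEN → S_NBR → S_SUP1 → S_SUP2 → S_LINK := by
  intro hopen hnbr hsup1 hsup2 μ _ z₀ m N r W U B hN hD h0 hae s hs
  have hne : ∀ y ∈ W, y ≠ 0 := fun y hy h => h0 (h ▸ hy)
  have hs0 : s ≠ 0 := hne s hs
  have hNC : (N : ℂ) ≠ 0 := by exact_mod_cast hN.ne'
  have hd0 : ∀ y ∈ W, (N : ℂ) * y ^ (N - 1) ≠ 0 := fun y hy =>
    mul_ne_zero hNC (pow_ne_zero _ (hne y hy))
  have hder : ∀ y : ℂ, HasStrictDerivAt (fun y : ℂ => z₀ + y ^ N) ((N : ℂ) * y ^ (N - 1)) y :=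
    fun y => (hasStrictDerivAt_pow N y).const_add z₀
  constructor
  · intro hsup hdiff
    obtain ⟨i, hi⟩ := hopen r W U B hD s hs hdiff
    obtain ⟨O, hO1, hO2, hO3⟩ := _root_.eventually_nhds_iff.mp (hi.and (hD.op.eventually_mem hs))
    set hol : ℂ → ℂ := fun y => B i y / ((N : ℂ) * y ^ (N - 1)) + m * (y ^ N)⁻¹ with hhol
    set e := ((hder s).hasStrictFDerivAt_equiv (hd0 s hs)).toOpenPartialHomeomorph
      (fun y : ℂ => z₀ + y ^ N) with he
    have hecoe : (e : ℂ → ℂ) = fun y : ℂ => z₀ + y ^ N :=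
      HasStrictFDerivAt.toOpenPartialHomeomorph_coe _
    have hse : s ∈ e.source := HasStrictFDerivAt.mem_toOpenPartialHomeomorph_source _
    set V : Set ℂ := e.source ∩ O with hV
    have hVo : IsOpen V := e.open_source.inter hO2
    have hVW : ∀ y ∈ V, y ∈ W := fun y hy => (hO1 y hy.2).2
    set G : Set ℂ := e '' V with hG
    have hGo : IsOpen G := e.isOpen_image_of_subset_source hVo inter_subset_left
    have hholV : ∀ y ∈ V, DifferentiableAt ℂ hol y := by
      intro y hy
      have h1 : DifferentiableAt ℂ (B i) y := (hD.hol i).differentiableAt (hD.op.mem_nhds (hVW y hy))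
      have h2 : DifferentiableAt ℂ (fun y : ℂ => (N : ℂ) * y ^ (N - 1)) y := by fun_prop
      have h3 : DifferentiableAt ℂ (fun y : ℂ => y ^ N) y := by fun_prop
      exact (h1.div h2 (hd0 y (hVW y hy))).add
        ((h3.inv (pow_ne_zero _ (hne y (hVW y hy)))).const_mul m)
    have hA : DifferentiableOn ℂ (fun z => hol (e.symm z)) G := by
      rintro z ⟨y, hy, rfl⟩
      have hsy : e.symm (e y) = y := e.left_inv hy.1
      have h1 : HasDerivAt e.symm ((N : ℂ) * y ^ (N - 1))⁻¹ (e y) := by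
        refine e.hasDerivAt_symm (e.map_source hy.1) (hd0 y (hVW y hy)) ?_
        rw [hsy, hecoe]
        exact (hder y).hasDerivAt
      have h2 : DifferentiableAt ℂ hol (e.symm (e y)) := by
        rw [hsy]; exact hholV y hy
      exact (h2.comp (e y) h1.differentiableAt).differentiableWithinAt
    have hbad : volume {y | y ∈ V ∧ CT μ (z₀ + y ^ N) ≠ hol y} = 0 := by
      refine measure_mono_null (fun y hy => ?_) (ae_iff.mp hae)
      intro hcon
      have h1 := (hcon (hVW y hy.1)).unique (hO1 y hy.1.2).1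
      have h2 := gr_inj h1
      refine hy.2 ?_
      have h3 : CT μ (z₀ + y ^ N) - m * (y ^ N)⁻¹ = B i y / ((N : ℂ) * y ^ (N - 1)) := by
        rw [eq_div_iff (hd0 y (hVW y hy.1)), ← h2]; ring
      simp only [hhol]
      rw [← h3]; ring
    have hbad2 : volume ((fun y : ℂ => z₀ + y ^ N) '' {y | y ∈ V ∧ CT μ (z₀ + y ^ N) ≠ hol y}) = 0 := by
      refine addHaar_image_eq_zero_of_differentiableOn_of_addHaar_eq_zero volume ?_ hbad
      have : Differentiable ℝ (fun y : ℂ => z₀ + y ^ N) := by fun_prop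
      exact this.differentiableOn
    have hae2 : ∀ᵐ z : ℂ, z ∈ G → CT μ z = hol (e.symm z) := by
      rw [ae_iff]
      refine measure_mono_null (fun z hz => ?_) hbad2
      simp only [mem_setOf_eq, Classical.not_imp] at hz
      obtain ⟨⟨y, hy, rfl⟩, hz2⟩ := hz
      have hsy : e.symm (e y) = y := e.left_inv hy.1
      rw [hsy] at hz2
      have hey : e y = z₀ + y ^ N := by rw [hecoe]
      refine ⟨y, ⟨hy, ?_⟩, hey.symm⟩
      rw [← hey]; exact hz2
    have hdis := hsup1 μ G (fun z => hol (e.symm z)) hGo hA hae2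
    refine Set.disjoint_left.mp hdis ?_ hsup
    refine ⟨s, ⟨hse, hO3⟩, ?_⟩
    rw [hecoe]
  · intro hnd
    by_contra hsup
    apply hnd
    obtain ⟨ρ, hρ, hCT⟩ := hsup2 μ _ hsup
    set K : ℂ → ℂ := fun y => (N : ℂ) * y ^ (N - 1) * (CT μ (z₀ + y ^ N) - m * (y ^ N)⁻¹) with hK
    have hKc : ContinuousAt K s := by
      have h1 : ContinuousAt (CT μ) (z₀ + s ^ N) :=
        (hCT.differentiableAt (isOpen_ball.mem_nhds (mem_ball_self hρ))).continuousAt
      have h2 : ContinuousAt (fun y : ℂ => z₀ + y ^ N) s := (hder s).hasDerivAt.continuousAt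
      have h3 : ContinuousAt (fun y : ℂ => CT μ (z₀ + y ^ N)) s :=
        ContinuousAt.comp (f := fun y : ℂ => z₀ + y ^ N) (g := CT μ) h1 h2
      have h4 : ContinuousAt (fun y : ℂ => (y ^ N)⁻¹) s :=
        (continuousAt_id.pow N).inv₀ (pow_ne_zero _ hs0)
      have h5 : ContinuousAt (fun y : ℂ => (N : ℂ) * y ^ (N - 1)) s := by fun_prop
      exact h5.mul (h3.sub (h4.const_mul m))
    have hBc : ∀ j, ContinuousAt (B j) s := fun j =>
      ((hD.hol j).differentiableAt (hD.op.mem_nhds hs)).continuousAt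
    -- almost everywhere `K` is one of the branches
    have hKB : ∀ᵐ y : ℂ, y ∈ W → ∃ j, K y = B j y := by
      filter_upwards [hae, hD.ae] with y h1 h2 hy
      obtain ⟨j, hj⟩ := h2 hy
      exact ⟨j, gr_inj ((h1 hy).unique hj)⟩
    obtain ⟨i, hi⟩ : ∃ i, K s = B i s := by
      by_contra hcon
      push Not at hcon
      have h1 : ∀ᶠ y in 𝓝 s, y ∈ W ∧ ∀ j, K y ≠ B j y := by
        refine (hD.op.eventually_mem hs).and ?_
        rw [Filter.eventually_all]
        intro j
        filter_upwards [(hKc.sub (hBc j)).eventually_ne (sub_ne_zero.mpr (hcon j))] with y hy hyj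
        exact hy (sub_eq_zero.mpr hyj)
      obtain ⟨O, hO1, hO2, hO3⟩ := _root_.eventually_nhds_iff.mp h1
      have hden : Dense {y' : ℂ | y' ∈ W → ∃ j, K y' = B j y'} :=
        Measure.dense_of_ae (μ := volume) hKB
      obtain ⟨y', hy'1, hy'2⟩ := hden.inter_open_nonempty O hO2 ⟨s, hO3⟩
      obtain ⟨j, hj⟩ := hy'2 (hO1 y' hy'1).1
      exact (hO1 y' hy'1).2 j hj
    have hne2 : ∀ᶠ y in 𝓝 s, y ∈ W ∧ ∀ j, j ≠ i → K y ≠ B j y := by
      refine (hD.op.eventually_mem hs).and ?_
      rw [Filter.eventually_all]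
      intro j
      rw [Filter.eventually_imp_distrib_left]
      intro hji
      have hKj : K s - B j s ≠ 0 := by
        rw [hi]
        exact sub_ne_zero.mpr (hD.ne i j (Ne.symm hji) s hs)
      filter_upwards [(hKc.sub (hBc j)).eventually_ne hKj] with y hy hyj
      exact hy (sub_eq_zero.mpr hyj)
    obtain ⟨V, hV1, hV2, hV3⟩ := _root_.eventually_nhds_iff.mp hne2
    have hkey : ∀ᶠ y in 𝓝 s, ∀ j, HasFDerivAt U (gr (B j y)) y → j = i := by
      filter_upwards [hV2.mem_nhds hV3] with y hy j hj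
      have hyW : y ∈ W := (hV1 y hy).1
      obtain ⟨k, hk⟩ := hopen r W U B hD y hyW hj.differentiableAt
      have hkj : k = j := by
        by_contra hkj
        exact hD.ne k j hkj y hyW (gr_inj (hk.self_of_nhds.unique hj))
      subst hkj
      -- a point near `y` where everything holds
      have hden : Dense {y' : ℂ | y' ∈ W → HasFDerivAt U (gr (K y')) y'} :=
        Measure.dense_of_ae (μ := volume) hae
      obtain ⟨O, hO1, hO2, hO3⟩ := _root_.eventually_nhds_iff.mp (hk.and (hV2.eventually_mem hy))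
      obtain ⟨y', hy'1, hy'2⟩ := hden.inter_open_nonempty O hO2 ⟨y, hO3⟩
      have hy'V := (hO1 y' hy'1).2
      have h1 : HasFDerivAt U (gr (K y')) y' := hy'2 (hV1 y' hy'V).1
      have h2 := gr_inj (h1.unique (hO1 y' hy'1).1)
      by_contra hki
      exact (hV1 y' hy'V).2 k hki h2
    exact (hnbr r W U B hD s hs i hkey).self_of_nhds.differentiableAt

end Pool.Agent.W481.CQ.LINK

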